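import Pool.Agent.H510.UMain
import Pool.Agent.H510.DR

set_option autoImplicit false

/-!
# The modal logic of `(ω^n, ≤)` is decidable for `n = 2` and undecidable for `n ≥ 3`

For `n = 2` see `Pool.Agent.H510.OmegaLogic`.  For `n ≥ 3` the word problem of a finitely presented
group `G` is reduced to the satisfiability of modal formulas in `(ω^n, ≤)`: the formula of a word
`w` describes a stepped surface in a three-dimensional coordinate subspace whose points are coloured
with differences in `G` between neighbouring points; the boundary of the surface spells `w`. Since
the surface is a disc, `w = 1` in `G` if the formula is satisfiable; and a null-homotopy of `w` gives a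
colouring of the triangular surface `x + y + z = N`. By the Novikov-Boone theorem (starting file
`Pool.Agent.Helper270.WPB`) there is a `G` with undecidable word problem. The non-theorems of `L_n`
are recursively enumerable, so the theorems are not.
-/

namespace Pool.Agent.Results.MP_d4a114_lc.CompleteAnswer

open Pool.Agent.H510.OmegaLogic

/-- For every `n > 1`, the modal logic `L_n` of the frame `(ω^n, ≤)` is decidable if and only if
`n = 2`, it is recursively enumerable if and only if `n = 2`, and it is recursively axiomatizable
(the closure of a recursive set of formulas and the axioms of `K` under modus ponens, substitution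
and necessitation) if and only if `n = 2`. -/
theorem result (n : ℕ) (hn : 1 < n) :
    ((ComputablePred fun φ : Fm => φ ∈ Logic n) ↔ n = 2) ∧
      ((REPred fun φ : Fm => φ ∈ Logic n) ↔ n = 2) ∧
      ((∃ Γ : Set Fm, (ComputablePred fun φ : Fm => φ ∈ Γ) ∧ ∀ φ, Derives Γ φ ↔ φ ∈ Logic n) ↔
        n = 2) := by
  have hre : (REPred fun φ : Fm => φ ∈ Logic n) → n = 2 := by
    intro h
    by_contra hne
    exact Pool.Agent.H510.UMain.not_re (by omega) h
  refine ⟨⟨fun h => hre h.to_re, ?_⟩, ⟨hre, ?_⟩, ⟨?_, ?_⟩⟩
  · rintro rfl
    exact logic_two_computable
  · rintro rfl
    exact logic_two_computable.to_re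
  · rintro ⟨Γ, hΓ, hD⟩
    exact hre ((Pool.Agent.H510.DR.derives_re Γ hΓ).of_eq hD)
  · rintro rfl
    exact ⟨Logic 2, logic_two_computable, derives_logic 2⟩

end Pool.Agent.Results.MP_d4a114_lc.CompleteAnswer
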